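import Pool.Agent.N116.EW.Sep
import Pool.Agent.TH291.NW.Low2

/-!
Project EW (helper116), part EW15: a macroscopic block is pivotal for the connection of the wired
arc to a column with positive probability, in the near-critical window.
-/

set_option autoImplicit false
set_option maxHeartbeats 1000000

namespace Pool.Agent.N216.EW

open H974 H12S H389NS H984N H984P H342P Finset TH291.NW Pool.Agent.N116.EW

/-- No connection of the wired arc to the column `m` when the block is removed. -/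
theorem no_band' {D : Dm} {m : ℤ} {p : ℤ × ℤ} {ρ : ℕ} (hρ : 1 ≤ ρ) (h0 : D.l ≤ p.1 - ρ)
    (h1 : max D.t 0 ≤ p.1 - ρ) (h2 : p.1 + ρ ≤ m) (h3 : 0 ≤ p.2 - ρ) (h4 : p.2 + ρ ≤ D.h)
    {F : Finset Edg} (hF : F ⊆ RE D.l m 0 D.h)
    (hu : ¬ LRc (p.1 - ρ) (p.1 + ρ) (p.2 + ρ) D.h F)
    (hl : ¬ LRc (p.1 - ρ) (p.1 + ρ) 0 (p.2 - ρ) F) :
    ¬ Cn (wa D) (lsd m 0 D.h) ((↑F : Set Edg) \ ↑(blk p ρ)) := by
  rintro ⟨u, hu1, v, hv1, huv⟩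
  have hρ' : (1:ℤ) ≤ ρ := by exact_mod_cast hρ
  have hu2 : u.1 ≤ p.1 - ρ := by
    have a1 := le_max_left D.t 0
    have a2 := le_max_right D.t 0
    rcases hu1 with ⟨-, -, h⟩ | ⟨h, -, -⟩ | ⟨-, -, h⟩
    · omega
    · omega
    · omega
  have hv2 : p.1 + ρ ≤ v.1 := by have := hv1.1; omega
  obtain ⟨y1, y2, hy1, hy2, hr, -⟩ := sub_LR (G := (↑F : Set Edg) \ ↑(blk p ρ))
    (a := p.1 - ρ) (b := p.1 + ρ) (c := 0) (d := D.h) (by omega)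
    (fun x y hG _ _ => by
      have h4 := hF (Finset.mem_coe.mp hG.1)
      rw [mem_RE_true] at h4
      omega)
    (fun x y hG _ _ => by
      have h4 := hF (Finset.mem_coe.mp hG.1)
      rw [mem_RE_false] at h4
      omega) huv hu2 hv2
  refine no_band (a := p.1 - ρ) (b := p.1 + ρ) (c := 0) (d := D.h) (p := p) (ρ := ρ) hρ le_rfl
    le_rfl h3 h4 (F := F ∩ RE (p.1 - ρ) (p.1 + ρ) 0 D.h) Finset.inter_subset_right
    (fun h => hu (h.mono Finset.inter_subset_left))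
    (fun h => hl (h.mono Finset.inter_subset_left))
    ⟨(p.1 - ρ, y1), ⟨rfl, hy1⟩, (p.1 + ρ, y2), ⟨rfl, hy2⟩, hr.mono ?_⟩
  rintro e ⟨⟨he1, he2⟩, he3⟩
  exact ⟨Finset.mem_coe.mpr (Finset.mem_inter.mpr
    ⟨Finset.mem_coe.mp he1, LRE_subset_RE (Finset.mem_coe.mp he3)⟩), he2⟩

theorem bpv_of' {D : Dm} {m : ℤ} {p : ℤ × ℤ} {ρ : ℕ} (hρ : 1 ≤ ρ) (h0 : D.l ≤ p.1 - ρ)
    (h1 : max D.t 0 ≤ p.1 - ρ) (h2 : p.1 + ρ ≤ m) (h3 : 0 ≤ p.2 - ρ) (h4 : p.2 + ρ ≤ D.h)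
    {F : Finset Edg} (hF : F ⊆ RE D.l m 0 D.h)
    (k1 : LRc D.l (p.1 - ρ) (p.2 - ρ) (p.2 + ρ) F)
    (k2 : LRc (p.1 + ρ) m (p.2 - ρ) (p.2 + ρ) F)
    (hu : ¬ LRc (p.1 - ρ) (p.1 + ρ) (p.2 + ρ) D.h F)
    (hl : ¬ LRc (p.1 - ρ) (p.1 + ρ) 0 (p.2 - ρ) F) :
    BPv (wa D) (lsd m 0 D.h) (blk p ρ) (↑F : Set Edg) := by
  have hb := bpv_of hρ h0 h2 h3 h4 hF k1 k2 hu hl
  refine ⟨?_, no_band' hρ h0 h1 h2 h3 h4 hF hu hl⟩
  obtain ⟨u, hu, v, hv, h⟩ := hb.1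
  exact ⟨u, Or.inr (Or.inl ⟨hu.1, hu.2⟩), v, hv, h⟩

/-- The probability that a block is pivotal, from below. -/
theorem bpv_prob' {q : ℝ} (h0 : 0 ≤ q) (hq1 : q ≤ 1) {D : Dm} {m : ℤ} {p : ℤ × ℤ} {ρ : ℕ}
    (hρ : 1 ≤ ρ) (h1 : D.l < p.1 - ρ) (h1' : max D.t 0 ≤ p.1 - ρ) (h2 : p.1 + ρ < m)
    (h3 : 0 < p.2 - ρ) (h4 : p.2 + ρ < D.h) :
    (hh q (p.1 - ρ - D.l) (2 * ρ) * hh q (m - (p.1 + ρ)) (2 * ρ)) *
      ((1 - hh q (2 * ρ) (D.h - (p.2 + ρ))) * (1 - hh q (2 * ρ) (p.2 - ρ - 0))) ≤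
    PQ q (RE D.l m 0 D.h) (fun F => BPv (wa D) (lsd m 0 D.h) (blk p ρ) ↑F) := by
  classical
  have ok := okq h0 hq1
  have hρ' : (1:ℤ) ≤ ρ := by exact_mod_cast hρ
  obtain ⟨U, hU⟩ : ∃ U : Finset Edg, U = RE D.l m 0 D.h := ⟨_, rfl⟩
  have sub : ∀ {a' b' c' d' : ℤ}, D.l ≤ a' → b' ≤ m → 0 ≤ c' → d' ≤ D.h →
      LRE a' b' c' d' ⊆ U := by
    intro a' b' c' d' g1 g2 g3 g4
    rw [hU]
    rintro ⟨x, y, _ | _⟩ he
    · rw [mem_LRE_false] at he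
      rw [mem_RE_false]
      omega
    · rw [mem_LRE_true] at he
      rw [mem_RE_true]
      omega
  obtain ⟨S1, hS1⟩ : ∃ S : Finset Edg, S = LRE D.l (p.1 - ρ) (p.2 - ρ) (p.2 + ρ) := ⟨_, rfl⟩
  obtain ⟨S2, hS2⟩ : ∃ S : Finset Edg, S = LRE (p.1 + ρ) m (p.2 - ρ) (p.2 + ρ) := ⟨_, rfl⟩
  obtain ⟨S3, hS3⟩ : ∃ S : Finset Edg, S = LRE (p.1 - ρ) (p.1 + ρ) (p.2 + ρ) D.h := ⟨_, rfl⟩
  obtain ⟨S4, hS4⟩ : ∃ S : Finset Edg, S = LRE (p.1 - ρ) (p.1 + ρ) 0 (p.2 - ρ) := ⟨_, rfl⟩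
  have s1 : S1 ⊆ U := by rw [hS1]; exact sub le_rfl (by omega) (by omega) (by omega)
  have s2 : S2 ⊆ U := by rw [hS2]; exact sub (by omega) le_rfl (by omega) (by omega)
  have s3 : S3 ⊆ U := by rw [hS3]; exact sub (by omega) (by omega) (by omega) le_rfl
  have s4 : S4 ⊆ U := by rw [hS4]; exact sub (by omega) (by omega) le_rfl (by omega)
  have hd : Disjoint (S1 ∪ S2) (S3 ∪ S4) := by
    rw [Finset.disjoint_left, hS1, hS2, hS3, hS4]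
    rintro ⟨x, y, _ | _⟩ he he'
    · simp only [Finset.mem_union, mem_LRE_false] at he he'
      omega
    · simp only [Finset.mem_union, mem_LRE_true] at he he'
      omega
  have l1 : ∀ F, F ⊆ U → (LRc D.l (p.1 - ρ) (p.2 - ρ) (p.2 + ρ) F ↔
      LRc D.l (p.1 - ρ) (p.2 - ρ) (p.2 + ρ) (F ∩ (S1 ∪ S2))) := fun F _ =>
    LRc_local (by rw [hS1]; exact Finset.subset_union_left)
  have l2 : ∀ F, F ⊆ U → (LRc (p.1 + ρ) m (p.2 - ρ) (p.2 + ρ) F ↔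
      LRc (p.1 + ρ) m (p.2 - ρ) (p.2 + ρ) (F ∩ (S1 ∪ S2))) := fun F _ =>
    LRc_local (by rw [hS2]; exact Finset.subset_union_right)
  have l3 : ∀ F, F ⊆ U → (LRc (p.1 - ρ) (p.1 + ρ) (p.2 + ρ) D.h F ↔
      LRc (p.1 - ρ) (p.1 + ρ) (p.2 + ρ) D.h (F ∩ (S3 ∪ S4))) := fun F _ =>
    LRc_local (by rw [hS3]; exact Finset.subset_union_left)
  have l4 : ∀ F, F ⊆ U → (LRc (p.1 - ρ) (p.1 + ρ) 0 (p.2 - ρ) F ↔
      LRc (p.1 - ρ) (p.1 + ρ) 0 (p.2 - ρ) (F ∩ (S3 ∪ S4))) := fun F _ =>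
    LRc_local (by rw [hS4]; exact Finset.subset_union_right)
  have hind := Pr_indep (p := fun _ : Edg => q) (U := U) (Finset.union_subset s1 s2)
    (Finset.union_subset s3 s4) hd
    (A := fun F => LRc D.l (p.1 - ρ) (p.2 - ρ) (p.2 + ρ) F ∧
      LRc (p.1 + ρ) m (p.2 - ρ) (p.2 + ρ) F)
    (B := fun F => ¬ LRc (p.1 - ρ) (p.1 + ρ) (p.2 + ρ) D.h F ∧
      ¬ LRc (p.1 - ρ) (p.1 + ρ) 0 (p.2 - ρ) F)
    (fun F hF => and_congr (l1 F hF) (l2 F hF))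
    (fun F hF => and_congr (not_congr (l3 F hF)) (not_congr (l4 F hF)))
  have hA : hh q (p.1 - ρ - D.l) (2 * ρ) * hh q (m - (p.1 + ρ)) (2 * ρ) ≤
      Pr (fun _ => q) U (fun F => LRc D.l (p.1 - ρ) (p.2 - ρ) (p.2 + ρ) F ∧
        LRc (p.1 + ρ) m (p.2 - ρ) (p.2 + ρ) F) := by
    have e1 := pr_LRc q (a := D.l) (b := p.1 - ρ) (c := p.2 - ρ) (d := p.2 + ρ) (S := U)
      (by rw [← hS1]; exact s1)
    have e2 := pr_LRc q (a := p.1 + ρ) (b := m) (c := p.2 - ρ) (d := p.2 + ρ) (S := U)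
      (by rw [← hS2]; exact s2)
    have e3 : (p.2 + ρ - (p.2 - ρ) : ℤ) = 2 * ρ := by ring
    rw [e3] at e1 e2
    rw [← e1, ← e2]
    exact Pr_harris ok (LRc_incr U _ _ _ _) (LRc_incr U _ _ _ _)
  have hB : (1 - hh q (2 * ρ) (D.h - (p.2 + ρ))) * (1 - hh q (2 * ρ) (p.2 - ρ - 0)) ≤
      Pr (fun _ => q) U (fun F => ¬ LRc (p.1 - ρ) (p.1 + ρ) (p.2 + ρ) D.h F ∧
        ¬ LRc (p.1 - ρ) (p.1 + ρ) 0 (p.2 - ρ) F) := by
    have e1 := pr_LRc q (a := p.1 - ρ) (b := p.1 + ρ) (c := p.2 + ρ) (d := D.h) (S := U)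
      (by rw [← hS3]; exact s3)
    have e2 := pr_LRc q (a := p.1 - ρ) (b := p.1 + ρ) (c := 0) (d := p.2 - ρ) (S := U)
      (by rw [← hS4]; exact s4)
    have e3 : (p.1 + ρ - (p.1 - ρ) : ℤ) = 2 * ρ := by ring
    rw [e3] at e1 e2
    rw [← e1, ← e2]
    obtain ⟨X, hX⟩ : ∃ X : Finset Edg → Prop, X = LRc (p.1 - ρ) (p.1 + ρ) (p.2 + ρ) D.h :=
      ⟨_, rfl⟩
    obtain ⟨Y, hY⟩ : ∃ Y : Finset Edg → Prop, Y = LRc (p.1 - ρ) (p.1 + ρ) 0 (p.2 - ρ) := ⟨_, rfl⟩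
    have hXi : IncrE U X := by rw [hX]; exact LRc_incr U _ _ _ _
    have hYi : IncrE U Y := by rw [hY]; exact LRc_incr U _ _ _ _
    rw [← hX, ← hY]
    have a1 := Pr_harris ok hXi hYi
    have a2 : Pr (fun _ => q) U (fun F => ¬ X F ∧ ¬ Y F) =
        1 - Pr (fun _ => q) U X - Pr (fun _ => q) U Y +
          Pr (fun _ => q) U (fun F => X F ∧ Y F) := by
      unfold Pr
      have : ∀ F : Finset Edg, ind (¬ X F ∧ ¬ Y F) = (1 - ind (X F)) - ind (Y F) +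
          ind (X F ∧ Y F) := by
        intro F
        rw [ind_and, ind_and, ind_not, ind_not]
        ring
      rw [Ex_congr (fun F _ => this F), Ex_add, Ex_sub, Ex_sub, Ex_const]
    rw [a2]
    nlinarith
  have hsum : Pr (fun _ => q) U (fun F => (LRc D.l (p.1 - ρ) (p.2 - ρ) (p.2 + ρ) F ∧
      LRc (p.1 + ρ) m (p.2 - ρ) (p.2 + ρ) F) ∧ (¬ LRc (p.1 - ρ) (p.1 + ρ) (p.2 + ρ) D.h F ∧
      ¬ LRc (p.1 - ρ) (p.1 + ρ) 0 (p.2 - ρ) F)) ≤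
      PQ q (RE D.l m 0 D.h) (fun F => BPv (wa D) (lsd m 0 D.h) (blk p ρ) ↑F) := by
    unfold PQ
    rw [← hU]
    apply Pr_mono ok
    rintro F hF ⟨⟨g1, g2⟩, g3, g4⟩
    exact bpv_of' hρ h1.le h1' h2.le h3.le h4.le (by rw [← hU]; exact hF) g1 g2 g3 g4
  refine le_trans ?_ hsum
  rw [hind]
  refine mul_le_mul hA hB ?_ (Pr_nonneg ok _ _)
  exact mul_nonneg (by linarith [hh_le_one h0 hq1 (2 * ρ) (D.h - (p.2 + ρ))])
    (by linarith [hh_le_one h0 hq1 (2 * ρ) (p.2 - ρ - 0)])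

/-- EW15. -/
theorem mac : S_MAC := by
  intro κ hκ
  obtain ⟨K, hK⟩ := exists_nat_ge (1 / κ)
  obtain ⟨c1, hc1, hrsw⟩ := rsw (K + 1) (by omega)
  refine ⟨c1 ^ 4, by positivity, ?_⟩
  intro n hn q hq1 hq2 hqn D hS m p ρ hm hρn hρ1 e1 e2 e3 e4
  have hn0 : (0:ℝ) < n := by exact_mod_cast hn
  have hκn : 0 < κ * n := by positivity
  have hK0 : (0:ℝ) ≤ K := Nat.cast_nonneg K
  have hKκ : (n:ℝ) ≤ K * (κ * n) := by
    have h1 : 1 ≤ K * κ := by rwa [div_le_iff₀ hκ] at hK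
    calc (n:ℝ) = 1 * n := (one_mul _).symm
      _ ≤ (K * κ) * n := mul_le_mul_of_nonneg_right h1 hn0.le
      _ = K * (κ * n) := by ring
  have cmp : ∀ x y : ℕ, (x:ℝ) ≤ n → κ * n ≤ (y:ℝ) → x ≤ (K + 1) * y := by
    intro x y hx hy
    have h1 : (x:ℝ) ≤ ((((K + 1) * y : ℕ)) : ℝ) := by
      push_cast
      have h2 : (K:ℝ) * (κ * n) ≤ K * y := mul_le_mul_of_nonneg_left hy hK0
      have h3 : (0:ℝ) ≤ y := Nat.cast_nonneg y
      linarith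
    exact_mod_cast h1
  have key : ∀ x y : ℤ, κ * n ≤ x → (x:ℝ) ≤ n → κ * n ≤ y → (y:ℝ) ≤ n →
      c1 ≤ hh q x y ∧ c1 ≤ 1 - hh q x y := by
    intro x y hx1 hx2 hy1 hy2
    have hx0 : 0 < x := by exact_mod_cast (hκn.trans_le hx1)
    have hy0 : 0 < y := by exact_mod_cast (hκn.trans_le hy1)
    obtain ⟨x', hx'⟩ := Int.eq_ofNat_of_zero_le hx0.le
    obtain ⟨y', hy'⟩ := Int.eq_ofNat_of_zero_le hy0.le
    rw [hx'] at hx1 hx2 hx0 ⊢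
    rw [hy'] at hy1 hy2 hy0 ⊢
    rw [Int.cast_natCast] at hx1 hx2 hy1 hy2
    refine hrsw n hn q hq1 hq2 hqn x' y' (by omega) (by omega) (cmp _ _ hx2 hy1)
      (cmp _ _ hy2 hx1) ?_
    have h1 : x' ≤ n := by exact_mod_cast hx2
    calc x' ≤ n := h1
      _ = 1 * n := (one_mul _).symm
      _ ≤ (K + 1) * n := Nat.mul_le_mul_right _ (by omega)
  obtain ⟨T, hT⟩ : ∃ T : ℤ, T = max D.t 0 := ⟨_, rfl⟩
  have hT0 : 0 ≤ T := by rw [hT]; exact le_max_right _ _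
  have hT0r : (0:ℝ) ≤ T := by exact_mod_cast hT0
  rw [← hT] at e1
  have hl0 := hS.ok.l_neg
  have hl0r : (D.l:ℝ) < 0 := by exact_mod_cast hl0
  have hw := hS.w_le
  push_cast at hw
  have hhl := hS.h_le
  have hmr : (m:ℝ) ≤ D.r := by exact_mod_cast hm
  have hρr : (1:ℝ) ≤ ρ := by exact_mod_cast hρ1
  have i1 : T < p.1 - ρ := by
    have : (T:ℝ) < ((p.1 - ρ : ℤ) : ℝ) := by push_cast; linarith
    exact_mod_cast this
  have i2 : p.1 + ρ < m := by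
    have : (((p.1 + ρ : ℤ)) : ℝ) < m := by push_cast; linarith
    exact_mod_cast this
  have i3 : 0 < p.2 - ρ := by
    have : (0:ℝ) < ((p.2 - ρ : ℤ) : ℝ) := by push_cast; linarith
    exact_mod_cast this
  have i4 : p.2 + ρ < D.h := by
    have : (((p.2 + ρ : ℤ)) : ℝ) < D.h := by push_cast; linarith
    exact_mod_cast this
  have hbp := bpv_prob' (q := q) (by linarith) (by linarith) (D := D) (m := m) (p := p) (ρ := ρ)
    hρ1 (by omega) (by rw [← hT]; exact i1.le) i2 i3 i4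
  refine le_trans ?_ hbp
  have r1 := key (p.1 - ρ - D.l) (2 * ρ) (by push_cast; linarith) (by push_cast; linarith)
    (by push_cast; linarith) (by push_cast; linarith)
  have r2 := key (m - (p.1 + ρ)) (2 * ρ) (by push_cast; linarith) (by push_cast; linarith)
    (by push_cast; linarith) (by push_cast; linarith)
  have r3 := key (2 * ρ) (D.h - (p.2 + ρ)) (by push_cast; linarith) (by push_cast; linarith)
    (by push_cast; linarith) (by push_cast; linarith)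
  have r4 := key (2 * ρ) (p.2 - ρ - 0) (by push_cast; linarith) (by push_cast; linarith)
    (by push_cast; linarith) (by push_cast; linarith)
  have e : c1^4 = (c1 * c1) * (c1 * c1) := by ring
  rw [e]
  refine mul_le_mul ?_ ?_ (by positivity) ?_
  · exact mul_le_mul r1.1 r2.1 hc1.le (hc1.le.trans r1.1)
  · exact mul_le_mul r3.2 r4.2 hc1.le (hc1.le.trans r3.2)
  · exact mul_nonneg (hc1.le.trans r1.1) (hc1.le.trans r2.1)

end Pool.Agent.N216.EW
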